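import Pool.Agent.H49.SW.Stm
import Pool.Agent.H35.TY.Stm
import Pool.Agent.H86.OG.Base

set_option autoImplicit false

/-!
# Words of length at most eight: statements
-/

namespace Pool.Agent.H86.S8

open Finset MvPolynomial
open Pool.Agent.H35.FC (gf Tiles)
open Pool.Agent.H72.OF (os)
open Pool.Agent.H49.SW (Pk evt)
open Pool.Agent.H86.OG (Base RC LC Aset Bset Nset)
open Pool.Agent.H35.TY (NC om nc)

/-- The system, with two more facts. -/
structure Pk8 {α : Type} [Fintype α] [DecidableEq α] (F G : MvPolynomial α ℤ)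
    (a b : List α → MvPolynomial α ℤ) (e e' : List α → ℤ)
    (M : List α → List α → Finset (List α)) : Prop extends Pk F G a b e e' M where
  cut : ∀ g f w, (∀ w1 w2, w = w1 ++ w2 → e (g ++ w1) = 1 → e' (w2 ++ f) = 0) → w ∈ M g f
  one : ∀ x : α, coeff (Finsupp.single x 1) F + coeff (Finsupp.single x 1) G ≤ 1

/-- R1: the quadratic case. -/
def SQ3 : Prop :=
  ∀ (α : Type) [Fintype α] [DecidableEq α] (a q : MvPolynomial α ℤ),
  2 ≤ Fintype.card α → a ≠ 0 → a.totalDegree ≤ 2 → constantCoeff a = 0 → (∀ m, 0 ≤ coeff m a) →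
  (∀ t : α → ℕ, (∀ x, 1 ≤ t x) → 0 ≤ evt t q) → constantCoeff q = 0 → q.totalDegree ≤ 2 →
  (∀ x : α, coeff (Finsupp.single x 1) a + coeff (Finsupp.single x 1) q ≤ 1) →
  (∀ m, 0 ≤ coeff m (a + q - os α * (a * q))) →
    ∀ m, 0 ≤ coeff m q

/-- R2: a quadratic and a linear one. -/
def SPair : Prop :=
  ∀ (α : Type) [Fintype α] [DecidableEq α] (a b : MvPolynomial α ℤ),
  a ≠ 0 → a.totalDegree ≤ 2 → constantCoeff a = 0 →
  (∀ t : α → ℕ, (∀ x, 1 ≤ t x) → 0 ≤ evt t a) →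
  b ≠ 0 → b.totalDegree ≤ 1 → constantCoeff b = 0 →
  (∀ t : α → ℕ, (∀ x, 1 ≤ t x) → 0 ≤ evt t b) →
  (∀ m, 0 ≤ coeff m (a + b - os α * (a * b))) →
    (∀ x : α, 0 ≤ coeff (Finsupp.single x 1) a) ∧
    (∃ x : α, 0 < coeff (Finsupp.single x 1) a) ∧ 2 ≤ a.totalDegree

/-- R3: both sides never zero. -/
def SBoth : Prop :=
  ∀ (α : Type) [Fintype α] [DecidableEq α] (F G : MvPolynomial α ℤ)
    (a b : List α → MvPolynomial α ℤ) (e e' : List α → ℤ) (M : List α → List α → Finset (List α)),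
  Pk8 F G a b e e' M → F.totalDegree ≤ 3 → G.totalDegree ≤ 4 → (∀ g, a g ≠ 0) → (∀ f, b f ≠ 0) →
  (∃ g, e g = 1 ∧ (a g).totalDegree ≤ 2) → (∃ f, e' f = 1 ∧ (b f).totalDegree ≤ 1) → False

/-- R4: one side is zero. -/
def SHalf : Prop :=
  ∀ (α : Type) [Fintype α] [DecidableEq α] (F G : MvPolynomial α ℤ)
    (a b : List α → MvPolynomial α ℤ) (e e' : List α → ℤ) (M : List α → List α → Finset (List α)),
  Pk8 F G a b e e' M → F.totalDegree ≤ 3 → (∃ g, e g = 1 ∧ (a g).totalDegree ≤ 2) →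
  (∃ f, b f = 0) → ∀ m, 0 ≤ coeff m (F * G)

/-- R4b: the polynomials, from R1-R4, `SRev`, `SGen`, `SDegA`. -/
def SMain : Prop :=
  ∀ (α : Type) [Fintype α] [DecidableEq α] (F G : MvPolynomial α ℤ)
    (a b : List α → MvPolynomial α ℤ) (e e' : List α → ℤ) (M : List α → List α → Finset (List α)),
  Pk8 F G a b e e' M → F.totalDegree ≤ 3 → G.totalDegree ≤ 4 →
  (∀ m, 0 ≤ coeff m (F * G)) ∨
    ∃ g f, e g = 1 ∧ a g = 0 ∧ e' f = 1 ∧ (b f).totalDegree ≤ 1

/-- R4c: the mirror image. -/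
def SRev8 : Prop :=
  ∀ (α : Type) [Fintype α] [DecidableEq α] (F G : MvPolynomial α ℤ)
    (a b : List α → MvPolynomial α ℤ) (e e' : List α → ℤ) (M : List α → List α → Finset (List α)),
  Pk8 F G a b e e' M →
    Pk8 G F (fun g => b g.reverse) (fun f => a f.reverse) (fun g => e' g.reverse)
      (fun f => e f.reverse) (fun g f => (M f.reverse g.reverse).image List.reverse)

/-- Finite support. -/
def Fs {α : Type} (V : NC α) : Prop := {w | V w ≠ 0}.Finite

/-- R5: the ideal argument. -/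
def SIdeal : Prop :=
  ∀ (α : Type) [Fintype α] [DecidableEq α] (P S Y : NC α), 2 ≤ Fintype.card α →
  (∀ w : List α, Y w ≠ 0 → w.length = 1) → (∀ x : α, Y [x] = 0 ∨ Y [x] = 1) →
  (∃ x : α, Y [x] = 1) → S [] = 1 → (∀ w : List α, 3 < w.length → S w = 0) →
  Fs (P * (1 - om * Y)) → Fs (P * (om * S)) →
  Fs P ∨ S = (1 - Y * om) * (1 + nc fun w => if w.length = 1 then S w + Y w else 0)

/-- R6: the case of a zero on the left. -/
def SPrime : Prop :=
  ∀ (α : Type) [Fintype α] [DecidableEq α] (C S P N : Set (List α)) (L : ℕ), Base C S P N L →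
  2 ≤ Fintype.card α →
  ∀ g f, RC C S g → LC C P f → (Nset C S P g f).Nonempty →
  (∀ w ∈ Nset C S P g f, w.length = 1) → (∀ w ∈ Aset C S g, w.length ≤ 3) →
  (∀ w ∈ Bset C P f, w.length ≤ 6) →
  ∃ S' P' : Set (List α), S'.Finite ∧ P'.Finite ∧ Tiles C S' P' ∅

/-- R7: the system of a code with a tiling, with the link. -/
def SLink : Prop :=
  ∀ (α : Type) [Fintype α] [DecidableEq α] (C S P N : Finset (List α)), 2 ≤ Fintype.card α →
  Pool.Agent.H35.FC.IsCode (C : Set (List α)) → Tiles (C : Set (List α)) S P N →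
  (∃ S P : Set (List α), S.Finite ∧ P.Finite ∧ Tiles (C : Set (List α)) S P ∅) ∨
    ∃ (F G : MvPolynomial α ℤ) (a b : List α → MvPolynomial α ℤ) (e e' : List α → ℤ)
      (M : List α → List α → Finset (List α)), Pk8 F G a b e e' M ∧
      1 - gf C = os α * (F * G) ∧
      (F.totalDegree ≤ 3 → G.totalDegree ≤ 4 →
        (∃ g f, e g = 1 ∧ a g = 0 ∧ e' f = 1 ∧ (b f).totalDegree ≤ 1) →
        ∃ S P : Set (List α), S.Finite ∧ P.Finite ∧ Tiles (C : Set (List α)) S P ∅) ∧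
      (G.totalDegree ≤ 3 → F.totalDegree ≤ 4 →
        (∃ g f, e' f = 1 ∧ b f = 0 ∧ e g = 1 ∧ (a g).totalDegree ≤ 1) →
        ∃ S P : Set (List α), S.Finite ∧ P.Finite ∧ Tiles (C : Set (List α)) S P ∅)

end Pool.Agent.H86.S8
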