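import Pool.Agent.H86.S8.Stm
import Pool.Agent.H72.TY.Tile

set_option autoImplicit false

/-!
# The case of a zero on the left
-/

namespace Pool.Agent.H86.S8

open Pool.Agent.H35
open Pool.Agent.H35.FC (IsCode Facts Tiles star_nil star_append star_of_mem)
open Pool.Agent.H35.TY
open Pool.Agent.H72.TY (ind_mul)
open Pool.Agent.H86.OG

theorem ind_nonneg {α : Type} (S : Set (List α)) (w : List α) : 0 ≤ ind S w := by
  rcases ind_cases S w with e | e
  · rw [e]
  · rw [e]; norm_num

/-- A coefficient of a product equal to one. -/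
theorem sum_one {α : Type} {V W : NC α} (hV : ∀ w, 0 ≤ V w) (hW : ∀ w, 0 ≤ W w) {w : List α}
    (h : (V * W) w = 1) : ∃ i, i ≤ w.length ∧ V (w.take i) ≠ 0 ∧ W (w.drop i) ≠ 0 ∧
      ∀ j, j ≤ w.length → V (w.take j) ≠ 0 → W (w.drop j) ≠ 0 → j = i := by
  rw [mul_eq_sum] at h
  have hex : ∃ i ∈ Finset.range (w.length + 1), V (w.take i) * W (w.drop i) ≠ 0 := by
    by_contra hcon
    push Not at hcon
    rw [Finset.sum_eq_zero hcon] at h
    exact zero_ne_one h
  obtain ⟨i, hi, hi1⟩ := hex
  have hVi : V (w.take i) ≠ 0 := fun h1 => hi1 (by rw [h1, zero_mul])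
  have hWi : W (w.drop i) ≠ 0 := fun h1 => hi1 (by rw [h1, mul_zero])
  refine ⟨i, by rw [Finset.mem_range] at hi; omega, hVi, hWi, fun j hj hVj hWj => ?_⟩
  by_contra hne
  have hjr : j ∈ Finset.range (w.length + 1) := by rw [Finset.mem_range]; omega
  have h2 : V (w.take i) * W (w.drop i) + V (w.take j) * W (w.drop j) ≤ 1 := by
    rw [← h]
    have h3 : ({i, j} : Finset ℕ) ⊆ Finset.range (w.length + 1) := by
      intro k hk
      rw [Finset.mem_insert, Finset.mem_singleton] at hk
      rcases hk with rfl | rfl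
      · exact hi
      · exact hjr
    rw [← Finset.sum_pair (f := fun i => V (w.take i) * W (w.drop i)) (Ne.symm hne)]
    exact Finset.sum_le_sum_of_subset_of_nonneg h3 fun k _ _ => mul_nonneg (hV _) (hW _)
  have h4 : 0 < V (w.take i) * W (w.drop i) :=
    mul_pos (lt_of_le_of_ne (hV _) hVi.symm) (lt_of_le_of_ne (hW _) hWi.symm)
  have h5 : 0 < V (w.take j) * W (w.drop j) :=
    mul_pos (lt_of_le_of_ne (hV _) hVj.symm) (lt_of_le_of_ne (hW _) hWj.symm)
  omega

theorem mul_nonneg' {α : Type} {V W : NC α} (hV : ∀ w, 0 ≤ V w) (hW : ∀ w, 0 ≤ W w)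
    (w : List α) : 0 ≤ (V * W) w := by
  rw [mul_eq_sum]
  exact Finset.sum_nonneg fun i _ => mul_nonneg (hV _) (hW _)

theorem ind_ne {α : Type} {S : Set (List α)} {w : List α} (h : ind S w ≠ 0) : w ∈ S := by
  by_contra hc
  exact h (ind_neg hc)

theorem ind_ne' {α : Type} {S : Set (List α)} {w : List α} (h : w ∈ S) : ind S w ≠ 0 := by
  rw [ind_pos h]
  exact one_ne_zero

/-- A tiling from an identity. -/
theorem tiles_of_mul {α : Type} {C S' Q : Set (List α)} (h0 : [] ∈ Q)
    (h : ind S' * ind (FC.Star C) * ind Q = top) : Tiles C S' Q ∅ := by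
  intro w
  refine ⟨fun h => absurd h (Set.notMem_empty w), fun _ => ?_⟩
  have hT0 : ∀ u, 0 ≤ (ind S' * ind (FC.Star C)) u :=
    mul_nonneg' (ind_nonneg _) (ind_nonneg _)
  have hone : ∀ u, (ind S' * ind (FC.Star C) * ind Q) u = 1 := fun u => by rw [h]; rfl
  have hT1 : ∀ u, (ind S' * ind (FC.Star C)) u ≤ 1 := by
    intro u
    have h1 := hone u
    rw [mul_eq_sum] at h1
    have h2 : (ind S' * ind (FC.Star C)) (u.take u.length) * ind Q (u.drop u.length) ≤ 1 := by
      rw [← h1]
      exact Finset.single_le_sum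
        (f := fun i => (ind S' * ind (FC.Star C)) (u.take i) * ind Q (u.drop i))
        (fun i _ => mul_nonneg (hT0 _) (ind_nonneg _ _)) (Finset.mem_range.2 (by omega))
    rwa [List.take_length, List.drop_length, ind_pos h0, mul_one] at h2
  obtain ⟨i, hi, hTi, hQi, hu⟩ := sum_one hT0 (ind_nonneg Q) (hone w)
  have hTi1 : (ind S' * ind (FC.Star C)) (w.take i) = 1 := by
    have h1 := hT0 (w.take i)
    have h2 := hT1 (w.take i)
    omega
  obtain ⟨k, hk, hSk, hCk, hu'⟩ := sum_one (ind_nonneg S') (ind_nonneg _) hTi1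
  refine ⟨((w.take i).take k, (w.take i).drop k, w.drop i), ⟨ind_ne hSk, ind_ne hCk, ind_ne hQi,
    ?_⟩, ?_⟩
  · show (w.take i).take k ++ ((w.take i).drop k ++ w.drop i) = w
    rw [← List.append_assoc, List.take_append_drop, List.take_append_drop]
  · rintro ⟨s', c', p'⟩ ⟨hs', hc', hp', he⟩
    simp only at hs' hc' hp' he
    obtain ⟨j, hj⟩ : ∃ j, j = (s' ++ c').length := ⟨_, rfl⟩
    have hw : w = (s' ++ c') ++ p' := by rw [List.append_assoc]; exact he.symm
    have htj : w.take j = s' ++ c' := by rw [hw, hj, List.take_left]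
    have hdj : w.drop j = p' := by rw [hw, hj, List.drop_left]
    have hjl : j ≤ w.length := by
      have h9 := congrArg List.length hw
      rw [List.length_append] at h9
      omega
    have hTs : (ind S' * ind (FC.Star C)) (s' ++ c') ≠ 0 := by
      rw [mul_eq_sum]
      have h3 : ind S' ((s' ++ c').take s'.length) * ind (FC.Star C) ((s' ++ c').drop s'.length) ≤
          ∑ i ∈ Finset.range ((s' ++ c').length + 1),
            ind S' ((s' ++ c').take i) * ind (FC.Star C) ((s' ++ c').drop i) :=
        Finset.single_le_sum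
          (f := fun i => ind S' ((s' ++ c').take i) * ind (FC.Star C) ((s' ++ c').drop i))
          (fun i _ => mul_nonneg (ind_nonneg _ _) (ind_nonneg _ _))
          (Finset.mem_range.2 (by rw [List.length_append]; omega))
      rw [List.take_left, List.drop_left, ind_pos hs', ind_pos hc'] at h3
      intro h4
      rw [h4] at h3
      norm_num at h3
    have hij : j = i := hu j hjl (by rw [htj]; exact hTs) (by rw [hdj]; exact ind_ne' hp')
    have hti : w.take i = s' ++ c' := by rw [← hij, htj]
    have hki : s'.length = k := by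
      refine hu' s'.length ?_ ?_ ?_
      · rw [hti, List.length_append]; omega
      · rw [hti, List.take_left]; exact ind_ne' hs'
      · rw [hti, List.drop_left]; exact ind_ne' hc'
    rw [hti, ← hki, List.take_left, List.drop_left, ← hij, hdj]

section
variable {α : Type} {C S Pp N : Set (List α)} {L : ℕ}

/-- The words after which `g` is complete. -/
def Xb (C S : Set (List α)) (g : List α) : Set (List α) := {z | RC C S (g ++ z)}

theorem uniq' (hB : Base C S Pp N L) {g f s c b s' c' b' : List α} (hs : s ∈ Aset C S g)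
    (hc : c ∈ FC.Star C) (hb : b ∈ Bset C Pp f) (hs' : s' ∈ Aset C S g) (hc' : c' ∈ FC.Star C)
    (hb' : b' ∈ Bset C Pp f) (e : s ++ (c ++ b) = s' ++ (c' ++ b')) :
    s = s' ∧ c = c' ∧ b = b' := by
  have hT := partP hB g f
  have h1 : (s, c, b) ∈ Facts (Aset C S g) (FC.Star C) (Bset C Pp f) (s ++ (c ++ b)) :=
    ⟨hs, hc, hb, rfl⟩
  have h2 : (s', c', b') ∈ Facts (Aset C S g) (FC.Star C) (Bset C Pp f) (s ++ (c ++ b)) :=
    ⟨hs', hc', hb', e.symm⟩
  have hN : s ++ (c ++ b) ∉ Nset C S Pp g f := by
    intro h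
    rw [(hT _).1 h] at h1
    exact h1
  have h3 := ((hT _).2 hN).unique h1 h2
  simp only [Prod.mk.injEq] at h3
  exact h3

theorem tileX (hB : Base C S Pp N L) (g f : List α) :
    ind (Xb C S g) * ind (Bset C Pp f) = top - ind (Nset C S Pp g f) := by
  have hT := partP hB g f
  apply ind_mul
  · intro u v hu hv hN
    obtain ⟨s, hs, c, hc, rfl⟩ := facA hB.code (g := g) (w := u) hu
    have h1 : (s, c, v) ∈ Facts (Aset C S g) (FC.Star C) (Bset C Pp f) ((s ++ c) ++ v) :=
      ⟨hs, hc, hv, by rw [List.append_assoc]⟩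
    rw [(hT _).1 hN] at h1
    exact h1
  · intro w hw
    obtain ⟨⟨s, c, b⟩, ⟨h1, h2, h3, h4⟩, -⟩ := (hT w).2 hw
    refine ⟨s ++ c, b, ?_, h3, by rw [List.append_assoc]; exact h4⟩
    show RC C S (g ++ (s ++ c))
    rw [← List.append_assoc]
    exact rc_star (rc_of_aset h1) h2
  · intro u v u' v' hu hv hu' hv' e
    obtain ⟨s, hs, c, hc, rfl⟩ := facA hB.code (g := g) (w := u) hu
    obtain ⟨s', hs', c', hc', rfl⟩ := facA hB.code (g := g) (w := u') hu'
    obtain ⟨h1, h2, -⟩ := uniq' hB hs hc hv hs' hc' hv' (by simpa only [List.append_assoc] using e)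
    rw [h1, h2]

theorem tileA (hB : Base C S Pp N L) {f : List α} (hne : (Bset C Pp f).Nonempty) (g : List α) :
    ind (Aset C S g) * ind (FC.Star C) = ind (Xb C S g) := by
  have h : ind (Aset C S g) * ind (FC.Star C) = top - ind (Xb C S g)ᶜ := by
    apply ind_mul
    · intro u v hu hv
      rw [Set.mem_compl_iff, not_not]
      show RC C S (g ++ (u ++ v))
      rw [← List.append_assoc]
      exact rc_star (rc_of_aset hu) hv
    · intro w hw
      rw [Set.mem_compl_iff, not_not] at hw
      obtain ⟨s, hs, c, hc, rfl⟩ := facA hB.code (g := g) (w := w) hw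
      exact ⟨s, c, hs, hc, rfl⟩
    · intro u v u' v' hu hv hu' hv' e
      obtain ⟨b, hb⟩ := hne
      refine (uniq' hB hu hv hb hu' hv' hb ?_).1
      rw [← List.append_assoc, e, List.append_assoc]
  rw [h]
  funext w
  rw [sub_apply]
  have h1 : (top : NC α) w = 1 := rfl
  rw [h1]
  by_cases hw : w ∈ Xb C S g
  · rw [ind_pos hw, ind_neg (fun h : w ∈ (Xb C S g)ᶜ => h hw), sub_zero]
  · rw [ind_neg hw, ind_pos (show w ∈ (Xb C S g)ᶜ from hw), sub_self]

end

/-- `(1 - C) C* = 1`. -/
theorem star_inv {α : Type} {C : Set (List α)} (hC : IsCode C) :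
    (1 - ind C) * ind (FC.Star C) = 1 := by
  have h : ind C * ind (FC.Star C) = top - ind ({w | w ∉ FC.Star C} ∪ {[]}) := by
    apply ind_mul
    · intro u v hu hv hw
      rcases hw with hw | hw
      · exact hw (star_append (star_of_mem hu) hv)
      · have h1 : u = [] := (List.append_eq_nil_iff.1 hw).1
        exact hC.1 (h1 ▸ hu)
    · intro w hw
      rw [Set.mem_union, not_or] at hw
      have hw1 : w ∈ FC.Star C := by
        by_contra hc
        exact hw.1 hc
      obtain ⟨c, z, hc, hz, e⟩ := FS.st_first hw1 hw.2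
      exact ⟨c, z, hc, hz, e.symm⟩
    · intro u v u' v' hu hv hu' hv' e
      obtain ⟨l, hl, rfl⟩ := hv
      obtain ⟨l', hl', rfl⟩ := hv'
      have h1 := hC.2 (u :: l) (u' :: l') (by
        intro c hc
        rcases List.mem_cons.1 hc with rfl | hc
        · exact hu
        · exact hl c hc) (by
        intro c hc
        rcases List.mem_cons.1 hc with rfl | hc
        · exact hu'
        · exact hl' c hc) (by
        rw [List.flatten_cons, List.flatten_cons]
        exact e)
      exact (List.cons.inj h1).1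
  rw [sub_mul, one_mul, h]
  funext w
  rw [sub_apply, sub_apply]
  have h1 : (top : NC α) w = 1 := rfl
  rw [h1]
  rcases w with _ | ⟨x, w⟩
  · rw [ind_pos star_nil, ind_pos (Or.inr rfl), one_nil]
    norm_num
  · rw [one_cons]
    by_cases hw : x :: w ∈ FC.Star C
    · rw [ind_pos hw, ind_neg]
      · norm_num
      · rintro (h2 | h2)
        · exact h2 hw
        · exact List.cons_ne_nil _ _ h2
    · rw [ind_neg hw, ind_pos (Or.inl hw)]
      norm_num

theorem inv_comm {α : Type} {V W : NC α} (h : V * W = 1) : W * V = 1 := by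
  have hW : V ≠ 0 := by
    rintro rfl
    rw [zero_mul] at h
    have := congrFun h []
    rw [zero_apply, one_nil] at this
    exact zero_ne_one this
  have h1 : V * (W * V - 1) = 0 := by
    rw [mul_sub, ← mul_assoc, h, one_mul, mul_one, sub_self]
  rcases eq_zero_of_mul h1 with h2 | h2
  · exact absurd h2 hW
  · exact sub_eq_zero.1 h2

theorem inv_unique {α : Type} {V W U : NC α} (h : V * U = 1) (h' : W * U = 1) : V = W := by
  have h1 := inv_comm h'
  calc V = V * (U * W) := by rw [h1, mul_one]
    _ = W := by rw [← mul_assoc, h, one_mul]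

/-- Multiplication by a set of letters. -/
theorem mul_let {α : Type} (V Y : NC α) (hY : ∀ w : List α, Y w ≠ 0 → w.length = 1) (u : List α)
    (y : α) : (V * Y) (u ++ [y]) = V u * Y [y] := by
  have h0 : Y [] = 0 := by
    by_contra h
    have := hY _ h
    simp at this
  induction u generalizing V with
  | nil =>
    rw [List.nil_append, mul_cons, mul_nil, h0, mul_zero, add_zero]
  | cons x u ih =>
    have h1 : Y (x :: (u ++ [y])) = 0 := by
      by_contra h
      have := hY _ h
      simp at this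
    rw [List.cons_append, mul_cons, h1, mul_zero, zero_add, ih, nc_apply]

theorem mul_let_nil {α : Type} (V Y : NC α) (hY : ∀ w : List α, Y w ≠ 0 → w.length = 1) :
    (V * Y) [] = 0 := by
  rw [mul_nil]
  by_cases h : Y [] = 0
  · rw [h, mul_zero]
  · have := hY _ h
    simp at this

/-- The values of `B`. -/
theorem valB {α : Type} {P B Y : NC α} (hY : ∀ w : List α, Y w ≠ 0 → w.length = 1)
    (hB : B = P - P * om * Y) {y : α} (hy : Y [y] = 1) (w : List α) (z : α) :
    B (w ++ [z] ++ [y]) = P (w ++ [z] ++ [y]) - P (w ++ [z]) + P w := by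
  rw [hB, sub_apply, mul_let _ _ hY, hy, mul_one, mul_om_snoc]
  ring

/-- Finite `P`: all coefficients are nonnegative. -/
theorem posP {α : Type} {P B Y X : NC α} (hY : ∀ w : List α, Y w ≠ 0 → w.length = 1)
    (hB : B = P - P * om * Y) {y : α} (hy : Y [y] = 1) (hB0 : ∀ w, 0 ≤ B w)
    (hB6 : ∀ w, B w ≠ 0 → w.length ≤ 6) (hX0 : X [] = 1) (hX1 : ∀ x : α, X [x] ≤ 1)
    (hXP : X * P = top) (hP : Fs P) : ∀ w, 0 ≤ P w := by
  have hlong : ∀ w : List α, 4 < w.length → P w = 0 := by
    by_contra hcon
    push Not at hcon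
    obtain ⟨w0, hw0, hw0'⟩ := hcon
    obtain ⟨w, ⟨hw1, hw2⟩, hmax⟩ := Set.exists_max_image
      {w : List α | 4 < w.length ∧ P w ≠ 0} List.length
      (hP.subset fun w hw => hw.2) ⟨w0, hw0, hw0'⟩
    have h1 : ∀ v : List α, w.length < v.length → P v = 0 := by
      intro v hv
      by_contra hc
      have := hmax v ⟨by omega, hc⟩
      omega
    have h2 := valB hY hB hy w y
    rw [h1 _ (by simp), h1 _ (by simp), sub_zero, zero_add] at h2
    have h3 := hB6 (w ++ [y] ++ [y]) (by rw [h2]; exact hw2)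
    simp only [List.length_append, List.length_cons, List.length_nil] at h3
    omega
  have h4 : ∀ w : List α, w.length = 4 → 0 ≤ P w := by
    intro w hw
    have h2 := valB hY hB hy w y
    rw [hlong (w ++ [y] ++ [y]) (by simp; omega), hlong (w ++ [y]) (by simp; omega), sub_zero,
      zero_add] at h2
    rw [← h2]
    exact hB0 _
  have h3 : ∀ w : List α, w.length = 3 → ∀ z : α, P (w ++ [z]) ≤ P w := by
    intro w hw z
    have h2 := valB hY hB hy w z
    rw [hlong (w ++ [z] ++ [y]) (by simp; omega)] at h2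
    have := hB0 (w ++ [z] ++ [y])
    omega
  have h3' : ∀ w : List α, w.length = 3 → 0 ≤ P w := fun w hw =>
    (h4 (w ++ [y]) (by simp; omega)).trans (h3 w hw y)
  have h2 : ∀ w : List α, w.length = 2 → 0 ≤ P w := by
    intro w hw
    have h5 := valB hY hB hy w y
    have h6 := h3 (w ++ [y]) (by simp; omega) y
    have h7 := hB0 (w ++ [y] ++ [y])
    omega
  have hP0 : P [] = 1 := by
    have h := congrFun hXP []
    rw [mul_nil, hX0, one_mul] at h
    exact h
  intro w
  rcases w with _ | ⟨x, _ | ⟨x2, _ | ⟨x3, _ | ⟨x4, _ | ⟨x5, w⟩⟩⟩⟩⟩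
  · rw [hP0]; norm_num
  · have h := congrFun hXP [x]
    have h8 : (X * P) [x] = P [x] + X [x] := by
      rw [mul_cons, hX0, mul_nil, nc_apply, hP0]
      ring
    have h9 : (top : NC α) [x] = 1 := rfl
    rw [h8, h9] at h
    have := hX1 x
    omega
  · exact h2 _ rfl
  · exact h3' _ rfl
  · exact h4 _ rfl
  · rw [hlong _ (by simp)]

theorem primeP (h5 : SIdeal) : SPrime := by
  intro α _ _ C S Pp N L hB hα g f hg hf hNne hN1 hA3 hB6
  have : Nonempty α := by
    rw [← Fintype.card_pos_iff]
    omega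
  have hBne : (Bset C Pp f).Nonempty := bset_nonempty hB f
  obtain ⟨X, hX⟩ : ∃ X, X = ind (Xb C S g) := ⟨_, rfl⟩
  obtain ⟨Y, hYd⟩ : ∃ Y, Y = ind (Nset C S Pp g f) := ⟨_, rfl⟩
  obtain ⟨B, hBd⟩ : ∃ B, B = ind (Bset C Pp f) := ⟨_, rfl⟩
  obtain ⟨A, hAd⟩ : ∃ A, A = ind (Aset C S g) := ⟨_, rfl⟩
  obtain ⟨K, hK⟩ : ∃ K, K = ind (FC.Star C) := ⟨_, rfl⟩
  have hXB : X * B = top - Y := by rw [hX, hBd, hYd]; exact tileX hB g f
  have hAK : A * K = X := by rw [hAd, hK, hX]; exact tileA hB hBne g
  have hCK : (1 - ind C) * K = 1 := by rw [hK]; exact star_inv hB.code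
  have hX0 : X [] = 1 := by
    rw [hX]
    refine ind_pos ?_
    show RC C S (g ++ [])
    rwa [List.append_nil]
  have hXne : X ≠ 0 := by
    intro h
    rw [h, zero_apply] at hX0
    exact zero_ne_one hX0
  obtain ⟨P, hXP⟩ : ∃ P : NC α, X * P = top := ⟨nc (solve X top), mul_solve _ _ hX0⟩
  have hPX : P * om * X = 1 := by
    apply inv_comm
    rw [← mul_assoc, hXP, top_mul_om]
  have hBP : B = P - P * om * Y := by
    have h2 : X * (P * om * Y) = Y := by
      rw [← mul_assoc, ← mul_assoc, hXP, top_mul_om, one_mul]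
    have h1 : X * (B - (P - P * om * Y)) = 0 := by
      rw [mul_sub, mul_sub, h2, hXP, hXB, sub_self]
    rcases eq_zero_of_mul h1 with h3 | h3
    · exact absurd h3 hXne
    · exact sub_eq_zero.1 h3
  have hC : P * (om * A) = 1 - ind C := by
    refine inv_unique (U := K) ?_ hCK
    rw [mul_assoc, mul_assoc, hAK, ← mul_assoc, hPX]
  have hY1 : ∀ w : List α, Y w ≠ 0 → w.length = 1 := by
    intro w hw
    rw [hYd] at hw
    exact hN1 w (ind_ne hw)
  obtain ⟨y, hy⟩ : ∃ y, Y [y] = 1 := by
    obtain ⟨w, hw⟩ := hNne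
    have h1 := hN1 w hw
    rw [List.length_eq_one_iff] at h1
    obtain ⟨y, rfl⟩ := h1
    exact ⟨y, by rw [hYd]; exact ind_pos hw⟩
  have hB0 : ∀ w, 0 ≤ B w := by rw [hBd]; exact ind_nonneg _
  have hBL : ∀ w, B w ≠ 0 → w.length ≤ 6 := by
    intro w hw
    rw [hBd] at hw
    exact hB6 w (ind_ne hw)
  have hAnil : [] ∈ Aset C S g := (nil_mem_aset hB.code).2 hg
  have hBnil : [] ∈ Bset C Pp f := (nil_mem_bset hB.code).2 hf
  have hfsB : Fs (P * (1 - om * Y)) := by
    have h1 : P * (1 - om * Y) = B := by rw [hBP, mul_sub, mul_one, mul_assoc]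
    rw [h1]
    exact (List.finite_length_le α 6).subset fun w hw => hBL w hw
  have hfsC : Fs (P * (om * A)) := by
    rw [hC]
    refine (List.finite_length_le α L).subset fun w hw => ?_
    by_contra hcon
    have hlen : L < w.length := by
      simpa using hcon
    apply hw
    rw [sub_apply, ind_neg (fun h => by have := hB.bC w h; omega)]
    rcases w with _ | ⟨x, w⟩
    · simp at hlen
    · rw [one_cons, sub_zero]
  have hdich := h5 α P A Y hα hY1
    (fun x => by rw [hYd]; exact ind_cases _ _) ⟨y, hy⟩ (by rw [hAd]; exact ind_pos hAnil)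
    (fun w hw => by
      rw [hAd]
      exact ind_neg fun h => by have := hA3 w h; omega) hfsB hfsC
  rcases hdich with hP | hS
  · -- `P` is finite
    have hP0 := posP hY1 hBP hy hB0 hBL hX0 (fun x => by
      rw [hX]
      rcases ind_cases (Xb C S g) [x] with h | h <;> rw [h] <;> norm_num) hXP hP
    have hX0' : ∀ w, 0 ≤ X w := by rw [hX]; exact ind_nonneg _
    have hP1 : ∀ w, P w ≤ 1 := by
      intro w
      have h1 : (X * P) w = 1 := by rw [hXP]; rfl
      rw [mul_eq_sum] at h1
      have h2 : X (w.take 0) * P (w.drop 0) ≤ 1 := by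
        rw [← h1]
        exact Finset.single_le_sum (f := fun i => X (w.take i) * P (w.drop i))
          (fun i _ => mul_nonneg (hX0' _) (hP0 _)) (Finset.mem_range.2 (by omega))
      rwa [List.take_zero, List.drop_zero, hX0, one_mul] at h2
    have hPQ : P = ind {w | P w ≠ 0} := by
      funext w
      by_cases h : P w = 0
      · rw [ind_neg (fun h1 : w ∈ {w | P w ≠ 0} => h1 h), h]
      · rw [ind_pos (show w ∈ {w | P w ≠ 0} from h)]
        have h1 := hP0 w
        have h2 := hP1 w
        omega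
    have hPnil : P [] ≠ 0 := by
      have h := congrFun hXP []
      rw [mul_nil, hX0, one_mul] at h
      rw [h]
      exact one_ne_zero
    refine ⟨Aset C S g, {w | P w ≠ 0}, aset_finite hB g, hP, ?_⟩
    refine tiles_of_mul hPnil ?_
    rw [← hPQ, ← hAd, ← hK, hAK, hXP]
  · -- the second case
    obtain ⟨lam, hlam⟩ : ∃ lam : NC α,
        lam = nc fun w => if w.length = 1 then A w + Y w else 0 := ⟨_, rfl⟩
    rw [← hlam] at hS
    have h1 : B * (om * ((1 + lam) * K)) = 1 := by
      have h2 : B * (om * (1 + lam)) = 1 - ind C := by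
        rw [← hC]
        rw [hS, hBP]
        noncomm_ring
      have h3 : B * (om * ((1 + lam) * K)) = B * (om * (1 + lam)) * K := by
        simp only [mul_assoc]
      rw [h3, h2, hCK]
    have h2 : om * ((1 + lam) * K * B) = 1 := by
      have := inv_comm h1
      simpa only [mul_assoc] using this
    have h3 : (1 + lam) * K * B = top := by
      have h4 := inv_comm h2
      have h5 : (top : NC α) * om = 1 := top_mul_om
      exact inv_unique h4 h5
    have hlw : ∀ w : List α, lam w = if w.length = 1 then A w + Y w else 0 := by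
      intro w
      rw [hlam]
      exact nc_apply _ w
    have hl0 : ∀ w : List α, w.length ≠ 1 → lam w = 0 := fun w hw => by
      rw [hlw]
      exact if_neg hw
    have hl1 : ∀ w : List α, w.length = 1 → lam w = A w + Y w := fun w hw => by
      rw [hlw]
      exact if_pos hw
    have h4 : (1 : NC α) + lam =
        ind {w : List α | w = [] ∨ (w.length = 1 ∧ (w ∈ Aset C S g ∨ w ∈ Nset C S Pp g f))} := by
      funext w
      rw [Pool.Agent.H35.TY.add_apply]
      rcases w with _ | ⟨x, _ | ⟨x2, w⟩⟩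
      · have hl : lam [] = 0 := hl0 _ (by simp)
        rw [ind_pos (Or.inl rfl), one_nil, hl, add_zero]
      · have hl : lam [x] = A [x] + Y [x] := hl1 _ rfl
        rw [one_cons, hl, zero_add, hAd, hYd]
        by_cases ha : [x] ∈ Aset C S g
        · have hn : [x] ∉ Nset C S Pp g f := by
            intro hn
            exact ncut (u1 := [x]) (u2 := []) hB.code (by rwa [List.append_nil])
              (rc_of_aset ha) (by rwa [List.nil_append])
          rw [ind_pos ha, ind_neg hn, ind_pos (Or.inr ⟨rfl, Or.inl ha⟩), add_zero]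
        · by_cases hn : [x] ∈ Nset C S Pp g f
          · rw [ind_neg ha, ind_pos hn, ind_pos (Or.inr ⟨rfl, Or.inr hn⟩), zero_add]
          · rw [ind_neg ha, ind_neg hn, ind_neg, add_zero]
            rintro (h | ⟨-, h | h⟩)
            · exact List.cons_ne_nil _ _ h
            · exact ha h
            · exact hn h
      · have hl : lam (x :: x2 :: w) = 0 := hl0 _ (by simp)
        rw [one_cons, hl, add_zero, ind_neg]
        rintro (h | ⟨h, -⟩)
        · exact List.cons_ne_nil _ _ h
        · simp at h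
    refine ⟨{w : List α | w = [] ∨ (w.length = 1 ∧ (w ∈ Aset C S g ∨ w ∈ Nset C S Pp g f))},
      Bset C Pp f, (List.finite_length_le α 1).subset ?_, bset_finite hB f, ?_⟩
    · rintro w (rfl | ⟨h, -⟩)
      · exact Nat.zero_le _
      · exact h.le
    · refine tiles_of_mul hBnil ?_
      rw [← h4, ← hK, ← hBd]
      exact h3

end Pool.Agent.H86.S8
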